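import Pool.Agent.Helper71.AG2.Goals

/-!
# Project AG+, packet N2': the inequality of the two-block case
-/

set_option autoImplicit false

namespace Pool.Agent.Helper34.AG2

/-- `w` small compared with `n`. -/
theorem big (n : ℕ) (hn : 18 ≤ n) :
    (4 * (n : ℤ) ^ 2 - 12 * n + 13) ^ 2 * (4 * (n : ℤ) ^ 2 - 12 * n + 21) ^ 2 ≤ 4096 * 3 ^ n := by
  induction n, hn using Nat.le_induction with
  | base => norm_num
  | succ n hn ih =>
    have h0 : (18 : ℤ) ≤ n := by exact_mod_cast hn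
    have h1 : 10 * (4 * ((n : ℤ) + 1) ^ 2 - 12 * (n + 1) + 13) ≤
        13 * (4 * (n : ℤ) ^ 2 - 12 * n + 13) := by nlinarith
    have h2 : 10 * (4 * ((n : ℤ) + 1) ^ 2 - 12 * (n + 1) + 21) ≤
        13 * (4 * (n : ℤ) ^ 2 - 12 * n + 21) := by nlinarith
    have h3 : 0 ≤ 4 * ((n : ℤ) + 1) ^ 2 - 12 * (n + 1) + 13 := by nlinarith
    have h4 : 0 ≤ 4 * ((n : ℤ) + 1) ^ 2 - 12 * (n + 1) + 21 := by nlinarith
    have h5 := pow_le_pow_left₀ (by positivity) h1 2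
    have h6 := pow_le_pow_left₀ (by positivity) h2 2
    have h7 := mul_le_mul h5 h6 (by positivity) (by positivity)
    push_cast
    set A := 4 * ((n : ℤ) + 1) ^ 2 - 12 * (n + 1) + 13
    set B := 4 * ((n : ℤ) + 1) ^ 2 - 12 * (n + 1) + 21
    set C := 4 * (n : ℤ) ^ 2 - 12 * n + 13
    set D := 4 * (n : ℤ) ^ 2 - 12 * n + 21
    have h8 : 10000 * (A ^ 2 * B ^ 2) ≤ 28561 * (C ^ 2 * D ^ 2) := by
      calc 10000 * (A ^ 2 * B ^ 2) = (10 * A) ^ 2 * (10 * B) ^ 2 := by ring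
        _ ≤ (13 * C) ^ 2 * (13 * D) ^ 2 := h7
        _ = 28561 * (C ^ 2 * D ^ 2) := by ring
    have h9 : 0 ≤ C ^ 2 * D ^ 2 := by positivity
    calc A ^ 2 * B ^ 2 ≤ 3 * (C ^ 2 * D ^ 2) := by linarith
      _ ≤ 3 * (4096 * 3 ^ n) := by linarith
      _ = 4096 * 3 ^ (n + 1) := by ring

theorem large (n w : ℕ) (hn : 18 ≤ n) (h : 8 * w ≤ (2 * n - 3) ^ 2 + 4) :
    (w + 1) ^ 2 * w ^ 2 ≤ 3 ^ n := by
  have h0 : (18 : ℤ) ≤ n := by exact_mod_cast hn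
  have h1 : 8 * (w : ℤ) ≤ 4 * (n : ℤ) ^ 2 - 12 * n + 13 := by
    have h2 : ((2 * n - 3 : ℕ) : ℤ) = 2 * n - 3 := by
      rw [Nat.cast_sub (by omega)]; push_cast; ring
    have h3 : (8 * (w : ℤ)) ≤ ((2 * n - 3 : ℕ) : ℤ) ^ 2 + 4 := by exact_mod_cast h
    rw [h2] at h3
    linarith [h3, (by ring : (2 * (n : ℤ) - 3) ^ 2 + 4 = 4 * (n : ℤ) ^ 2 - 12 * n + 13)]
  have h2 := big n hn
  have h5 := pow_le_pow_left₀ (by positivity) h1 2
  have h6 := pow_le_pow_left₀ (by positivity)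
    (by linarith : 8 * ((w : ℤ) + 1) ≤ 4 * (n : ℤ) ^ 2 - 12 * n + 21) 2
  have h7 := mul_le_mul h5 h6 (by positivity) (by positivity)
  have h8 : (((w + 1) ^ 2 * w ^ 2 : ℕ) : ℤ) ≤ ((3 ^ n : ℕ) : ℤ) := by
    push_cast
    nlinarith
  exact_mod_cast h8

theorem small1 (w : ℕ) (hw : 4 ≤ w) : (w + 1) ^ 2 * w ^ 2 ≤ 3 ^ (w + 2) := by
  induction w, hw using Nat.le_induction with
  | base => norm_num
  | succ w hw ih =>
    have h1 : (w + 2) ^ 2 ≤ 3 * w ^ 2 := by nlinarith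
    calc (w + 1 + 1) ^ 2 * (w + 1) ^ 2 = (w + 2) ^ 2 * (w + 1) ^ 2 := by ring
      _ ≤ 3 * w ^ 2 * (w + 1) ^ 2 := Nat.mul_le_mul_right _ h1
      _ = 3 * ((w + 1) ^ 2 * w ^ 2) := by ring
      _ ≤ 3 * 3 ^ (w + 2) := Nat.mul_le_mul_left _ ih
      _ = 3 ^ (w + 1 + 2) := by ring

theorem s1 (α u c r : ℕ) (hα2 : α ≤ 2 * 2 * u + 1) (h1 : 3 * (2 * 2 * α) ≤ 3 ^ c * (2 * 8))
    (h2 : 8 ^ 2 ≤ r * (2 * 2 * α)) (hc : 1 ≤ c) (hr : 1 ≤ r) : 6 ≤ u + c + r := by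
  by_contra hcon
  have hu : u ≤ 3 := by omega
  have hc' : c ≤ 4 := by omega
  have hr' : r ≤ 4 := by omega
  interval_cases u <;> interval_cases c <;> interval_cases r <;> omega

theorem s2 (α u c r : ℕ) (hα2 : α ≤ 2 * 4 * u + 1) (h1 : 3 * (2 * 4 * α) ≤ 3 ^ c * (2 * 8))
    (h2 : 8 ^ 2 ≤ r * (2 * 4 * α)) (hc : 1 ≤ c) (hr : 1 ≤ r) : 5 ≤ u + c + r := by
  by_contra hcon
  have hu : u ≤ 2 := by omega
  have hc' : c ≤ 3 := by omega
  have hr' : r ≤ 3 := by omega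
  interval_cases u <;> interval_cases c <;> interval_cases r <;> omega

theorem s3 (α u c r : ℕ) (hα2 : α ≤ 2 * 4 * u + 1) (h1 : 3 * (2 * 4 * α) ≤ 3 ^ c * (2 * 24))
    (h2 : 24 ^ 2 ≤ r * (2 * 4 * α)) (hc : 1 ≤ c) (hr : 1 ≤ r) : 9 ≤ u + c + r := by
  by_contra hcon
  have hu : u ≤ 6 := by omega
  have hc' : c ≤ 7 := by omega
  have hr' : r ≤ 7 := by omega
  interval_cases u <;> interval_cases c <;> interval_cases r <;> omega

theorem s4 (α u c r : ℕ) (hα2 : α ≤ 2 * 16 * u + 1)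
    (h2 : 80 ^ 2 ≤ r * (2 * 16 * α)) (hc : 1 ≤ c) (hr : 1 ≤ r) : 7 ≤ u + c + r := by
  by_contra hcon
  have hu : u ≤ 4 := by omega
  have hr' : r ≤ 5 := by omega
  interval_cases u <;> interval_cases r <;> omega

/-- **N2'.** -/
theorem n2 : Pool.Agent.Helper71.AG2.N2Stmt := by
  intro p a e α u f c r hp hp2 ha hq he hα hea hpe hα2 hf hc hr h1 h2
  obtain ⟨w, hw⟩ : ∃ w, p ^ a = w + 1 := ⟨p ^ a - 1, by omega⟩
  have hw4 : 4 ≤ w := by omega
  rw [hw] at h1 h2 ⊢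
  simp only [Nat.add_sub_cancel] at h1 h2 ⊢
  -- `w ^ 2 ≤ (2 e r) (2 e u + 1)`
  have k0 : w ^ 2 ≤ (2 * e * r) * (2 * e * u + 1) := by
    calc w ^ 2 ≤ r * (2 * e * α) := h2
      _ = (2 * e * r) * α := by ring
      _ ≤ _ := Nat.mul_le_mul_left _ hα2
  have k1 : 2 * w ≤ 2 * e * (r + u) + 1 := by
    by_contra hcon
    push Not at hcon
    have kX : 4 * ((2 * e * r) * (2 * e * u + 1)) ≤ (2 * e * (r + u) + 1) ^ 2 := by
      zify
      nlinarith [sq_nonneg ((2 * e * r : ℤ) - (2 * e * u + 1))]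
    have kY : (2 * e * (r + u) + 1) ^ 2 < (2 * w) ^ 2 := Nat.pow_lt_pow_left hcon (by norm_num)
    have kZ : (2 * w) ^ 2 = 4 * w ^ 2 := by ring
    omega
  obtain ⟨n, hn⟩ : ∃ n, u + f + c + r - 1 = n := ⟨_, rfl⟩
  rw [hn]
  have k2 : 2 * (r + u) + e + 3 ≤ 2 * n := by omega
  have k3 : 2 * w + e ^ 2 + 3 * e ≤ 2 * e * n + 1 := by
    have := Nat.mul_le_mul_left e k2
    nlinarith
  have hn3 : 3 ≤ 2 * n := by omega
  have k4 : 8 * w ≤ (2 * n - 3) ^ 2 + 4 := by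
    obtain ⟨m, hm⟩ : ∃ m, 2 * n = m + 3 := ⟨2 * n - 3, by omega⟩
    have k5 : 2 * w + e ^ 2 ≤ e * m + 1 := by
      have : 2 * e * n = e * m + 3 * e := by
        calc 2 * e * n = e * (2 * n) := by ring
          _ = e * (m + 3) := by rw [hm]
          _ = _ := by ring
      omega
    rw [hm, Nat.add_sub_cancel]
    by_contra hcon
    push Not at hcon
    have k6 : (2 * (w : ℤ) - 1 + e ^ 2) ≤ e * m := by
      have : (2 * (w : ℤ) + e ^ 2) ≤ e * m + 1 := by exact_mod_cast k5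
      linarith
    have k7 : (m : ℤ) ^ 2 + 4 < 8 * w := by exact_mod_cast hcon
    have k8 : (0 : ℤ) < e := by exact_mod_cast he
    have k9 : (4 : ℤ) ≤ w := by exact_mod_cast hw4
    have k10 : (2 * (w : ℤ) - 1 + e ^ 2) ^ 2 ≤ (e * m) ^ 2 :=
      pow_le_pow_left₀ (by nlinarith [sq_nonneg (e : ℤ)]) k6 2
    have k11 : 4 * (2 * (w : ℤ) - 1) * e ^ 2 ≤ (2 * (w : ℤ) - 1 + e ^ 2) ^ 2 := by
      nlinarith [sq_nonneg (2 * (w : ℤ) - 1 - e ^ 2)]
    have k12 : (e : ℤ) ^ 2 * (m ^ 2) < e ^ 2 * (8 * w - 4) := by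
      apply mul_lt_mul_of_pos_left _ (by positivity)
      linarith
    nlinarith
  rcases le_or_gt 18 n with hn18 | hn18
  · exact large n w hn18 k4
  have hw120 : w ≤ 120 := by
    have : (2 * n - 3) ^ 2 ≤ 31 ^ 2 := Nat.pow_le_pow_left (by omega) 2
    omega
  -- the case `e = 1`
  have c1 : e = 1 → (w + 1) ^ 2 * w ^ 2 ≤ 3 ^ n := by
    intro he1
    subst he1
    have : w + 2 ≤ n := by omega
    exact (small1 w hw4).trans (Nat.pow_le_pow_right (by norm_num) this)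
  rcases Nat.lt_or_ge a 2 with ha2 | ha2
  · have ha1 : a = 1 := by omega
    subst ha1
    exact c1 (by simpa using hea)
  have hp11 : p ≤ 11 := by
    by_contra hcon
    push Not at hcon
    have h3 : 12 ^ 2 ≤ p ^ a :=
      calc 12 ^ 2 ≤ p ^ 2 := Nat.pow_le_pow_left (by omega) 2
        _ ≤ p ^ a := Nat.pow_le_pow_right (by omega) ha2
    omega
  have hp3 : 3 ≤ p := by
    have := hp.two_le
    omega
  have ha4 : a ≤ 4 := by
    by_contra hcon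
    push Not at hcon
    have h3 : 3 ^ 5 ≤ p ^ a :=
      calc 3 ^ 5 ≤ 3 ^ a := Nat.pow_le_pow_right (by norm_num) (by omega)
        _ ≤ p ^ a := Nat.pow_le_pow_left hp3 a
    omega
  have fin : ∀ N : ℕ, (w + 1) ^ 2 * w ^ 2 ≤ 3 ^ N → N ≤ n → (w + 1) ^ 2 * w ^ 2 ≤ 3 ^ n :=
    fun N h h' => h.trans (Nat.pow_le_pow_right (by norm_num) h')
  have he16 : e ≤ a ^ 2 := Nat.le_of_dvd (by positivity) hea
  have e8 : p = 3 ∧ a = 2 → (w + 1) ^ 2 * w ^ 2 ≤ 3 ^ n := by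
    rintro ⟨rfl, rfl⟩
    obtain rfl : w = 8 := by omega
    refine fin 8 (by norm_num) ?_
    have he4 : e ≤ 4 := by simpa using he16
    interval_cases e
    · omega
    · have := s1 α u c r hα2 h1 h2 hc hr
      omega
    · exact absurd (dvd_refl 3) hpe
    · have := s2 α u c r hα2 h1 h2 hc hr
      omega
  have e26 : p = 3 ∧ a = 3 → (w + 1) ^ 2 * w ^ 2 ≤ 3 ^ n := by
    rintro ⟨rfl, rfl⟩
    apply c1
    have he9 : e ≤ 9 := by simpa using he16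
    interval_cases e <;> first | rfl | (exfalso; revert hpe hea; decide)
  have e80 : p = 3 ∧ a = 4 → (w + 1) ^ 2 * w ^ 2 ≤ 3 ^ n := by
    rintro ⟨rfl, rfl⟩
    obtain rfl : w = 80 := by omega
    refine fin 16 (by norm_num) ?_
    have he16' : e ≤ 16 := by simpa using he16
    have h5 : e ≤ 8 ∨ e = 16 := by
      by_contra hcon
      have h6 : 9 ≤ e ∧ e ≤ 15 := by omega
      obtain ⟨h7, h8⟩ := h6
      interval_cases e <;> exact absurd hea (by decide)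
    rcases h5 with h5 | rfl
    · have h6 : e * (r + u) ≤ 8 * (r + u) := Nat.mul_le_mul_right _ h5
      interval_cases e <;> omega
    · have := s4 α u c r hα2 h2 hc hr
      omega
  have e24 : p = 5 ∧ a = 2 → (w + 1) ^ 2 * w ^ 2 ≤ 3 ^ n := by
    rintro ⟨rfl, rfl⟩
    obtain rfl : w = 24 := by omega
    refine fin 12 (by norm_num) ?_
    have he4 : e ≤ 4 := by simpa using he16
    interval_cases e
    · omega
    · omega
    · omega
    · have := s3 α u c r hα2 h1 h2 hc hr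
      omega
  have e48 : p = 7 ∧ a = 2 → (w + 1) ^ 2 * w ^ 2 ≤ 3 ^ n := by
    rintro ⟨rfl, rfl⟩
    obtain rfl : w = 48 := by omega
    refine fin 15 (by norm_num) ?_
    have he4 : e ≤ 4 := by simpa using he16
    interval_cases e <;> omega
  have e120 : p = 11 ∧ a = 2 → (w + 1) ^ 2 * w ^ 2 ≤ 3 ^ n := by
    rintro ⟨rfl, rfl⟩
    obtain rfl : w = 120 := by omega
    exfalso
    have he4 : e ≤ 4 := by simpa using he16
    interval_cases e <;> omega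
  have hbig : ∀ m : ℕ, 122 ≤ m → p ^ a ≠ m := fun m h3 h4 => by omega
  interval_cases p <;> interval_cases a <;>
    first
    | exact e8 ⟨rfl, rfl⟩
    | exact e26 ⟨rfl, rfl⟩
    | exact e80 ⟨rfl, rfl⟩
    | exact e24 ⟨rfl, rfl⟩
    | exact e48 ⟨rfl, rfl⟩
    | exact e120 ⟨rfl, rfl⟩
    | (exfalso; omega)
    | (exfalso; revert hp; norm_num)

end Pool.Agent.Helper34.AG2
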